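import Mathlib
import Pool.Agent.LibUrysohn.IsoToGHMain
import Pool.Agent.LibUrysohn.GHToIso

/-!
The Gromov-Hausdorff distance and the orbit pseudometric of the isometry group of the Urysohn
space on closed sets are Borel-uniformly continuous bi-reducible.
-/

namespace Pool.Agent.Results.MP_d52b88_lc.GHUrysohn

open Pool.Agent.LibUrysohn

universe u

/-- For the Urysohn universal Polish metric space `U`: `rhoGH` reduces to `rhoIso U`, and
`rhoIso U` reduces to `rhoGH`. -/
theorem result (U : Type u) [MetricSpace U] (hU : IsUrysohn U) :
    BUReducible (borel NatMetric) (effros U) rhoGH (rhoIso U) ∧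
      BUReducible (effros U) (borel NatMetric) (rhoIso U) rhoGH :=
  ⟨rhoGH_reducible U hU, rhoIso_reducible U hU⟩

end Pool.Agent.Results.MP_d52b88_lc.GHUrysohn
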